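import Mathlib
import Pool.Agent.Helper903.TauF
import Pool.Agent.Helper903.TauG

set_option autoImplicit false

/-!
# MP_364e44_co, Q2: the limit for t = 5 does not exist
-/

namespace Pool.Agent.Results.MP_364e44_co.LimitFive

open Filter Topology

/-- `A ⊆ Z_n` is `t`-independent -/
def Independent (n t : ℕ) (A : Finset (ZMod n)) : Prop :=
  ∀ c : ZMod n → ℤ, 1 ≤ ∑ a ∈ A, |c a| → ∑ a ∈ A, |c a| ≤ (t : ℤ) → ∑ a ∈ A, c a • a ≠ 0

/-- the maximum size of a `t`-independent subset of `Z_n` -/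
noncomputable def tau (n t : ℕ) : ℕ :=
  sSup {k : ℕ | ∃ A : Finset (ZMod n), A.card = k ∧ Independent n t A}

theorem ind5 {n : ℕ} {A : Finset (ZMod n)} :
    Independent n 5 A ↔ Pool.Agent.Helper903.Tau.Ind5 n A := by
  unfold Independent Pool.Agent.Helper903.Tau.Ind5
  simp

/-- the Sidon counting bound -/
theorem card_sq_le {n : ℕ} [NeZero n] {A : Finset (ZMod n)} (hA : Independent n 5 A) :
    A.card ^ 2 ≤ 2 * n := by
  classical
  have hA' := ind5.1 hA
  have h1 : (A ×ˢ A).card ≤ 2 * (Finset.univ : Finset (ZMod n)).card := by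
    apply Finset.card_le_mul_card_image_of_maps_to (f := fun x : ZMod n × ZMod n => x.1 + x.2)
    · intro x _; exact Finset.mem_univ _
    · intro y _
      rcases Finset.eq_empty_or_nonempty {x ∈ A ×ˢ A | x.1 + x.2 = y} with h | ⟨⟨b1, b2⟩, hb⟩
      · rw [h]; simp
      · simp only [Finset.mem_filter, Finset.mem_product] at hb
        have : {x ∈ A ×ˢ A | x.1 + x.2 = y} ⊆ {(b1, b2), (b2, b1)} := by
          intro ⟨c1, c2⟩ hc
          simp only [Finset.mem_filter, Finset.mem_product] at hc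
          have hne : c1 + c2 ≠ 0 := by
            intro h0
            have : c2 = -c1 := by linear_combination h0
            exact Pool.Agent.Helper903.Tau.no_neg hA' hc.1.1 (this ▸ hc.1.2)
          have := Pool.Agent.Helper903.Tau.four hA' (Or.inl hc.1.1) (Or.inl hc.1.2)
            (Or.inl hb.1.1) (Or.inl hb.1.2) (by rw [hc.2, hb.2]) hne
          simp only [Finset.mem_insert, Finset.mem_singleton, Prod.mk.injEq]
          exact this
        exact (Finset.card_le_card this).trans Finset.card_le_two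
  rw [Finset.card_product, Finset.card_univ, ZMod.card] at h1
  nlinarith

theorem bdd (n : ℕ) [NeZero n] :
    BddAbove {k : ℕ | ∃ A : Finset (ZMod n), A.card = k ∧ Independent n 5 A} := by
  refine ⟨2 * n, ?_⟩
  rintro k ⟨A, rfl, hA⟩
  have := card_sq_le hA
  nlinarith

theorem tau_mem (n : ℕ) [NeZero n] :
    ∃ A : Finset (ZMod n), A.card = tau n 5 ∧ Independent n 5 A := by
  apply Nat.sSup_mem _ (bdd n)
  refine ⟨0, ∅, rfl, ?_⟩
  intro c h
  simp at h

theorem le_tau {n : ℕ} [NeZero n] {A : Finset (ZMod n)} (hA : Independent n 5 A) :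
    A.card ≤ tau n 5 := le_csSup (bdd n) ⟨A, rfl, hA⟩

theorem ratio_nonneg (n : ℕ) : (0 : ℝ) ≤ (tau n 5 : ℝ) / Real.sqrt n := by positivity

theorem ratio_le (n : ℕ) (hn : 0 < n) : (tau n 5 : ℝ) / Real.sqrt n ≤ 2 := by
  have : NeZero n := ⟨hn.ne'⟩
  obtain ⟨A, hA, hA'⟩ := tau_mem n
  have h1 := card_sq_le hA'
  rw [hA] at h1
  have h2 : ((tau n 5 : ℕ) : ℝ) ^ 2 ≤ 2 * n := by exact_mod_cast h1
  have hn' : (0 : ℝ) < n := by exact_mod_cast hn
  rw [div_le_iff₀ (Real.sqrt_pos.2 hn')]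
  apply le_of_sq_le_sq _ (by positivity)
  rw [mul_pow, Real.sq_sqrt hn'.le]
  nlinarith

/-- along large primes the ratio is at most `√0.1665` -/
theorem freq_le : ∃ᶠ n : ℕ in atTop, (tau n 5 : ℝ) / Real.sqrt n ≤ Real.sqrt 0.1665 := by
  obtain ⟨P0, hP0⟩ := Pool.Agent.Helper903.Tau.upper
  rw [frequently_atTop]
  intro a
  obtain ⟨p, hp, hpp⟩ := Nat.exists_infinite_primes (max a P0)
  refine ⟨p, (le_max_left _ _).trans hp, ?_⟩
  have : NeZero p := ⟨hpp.ne_zero⟩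
  obtain ⟨A, hA, hA'⟩ := tau_mem p
  have h1 := hP0 p hpp ((le_max_right _ _).trans hp) A (ind5.1 hA')
  rw [hA] at h1
  have hp' : (0 : ℝ) < p := by exact_mod_cast hpp.pos
  apply Real.le_sqrt_of_sq_le
  rw [div_pow, Real.sq_sqrt hp'.le, div_le_iff₀ hp']
  exact h1

/-- along `n = 6p(p-1)` the ratio is at least `√(1/6 - ε)` -/
theorem freq_ge (ε : ℝ) (hε : 0 < ε) :
    ∃ᶠ n : ℕ in atTop, Real.sqrt (1 / 6 - ε) ≤ (tau n 5 : ℝ) / Real.sqrt n := by
  obtain ⟨P1, hP1⟩ := exists_nat_ge (1 / ε)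
  rw [frequently_atTop]
  intro a
  obtain ⟨p, hp, hpp⟩ := Nat.exists_infinite_primes (max (max a P1) 4)
  have hpa : a ≤ p := (le_max_left _ _).trans ((le_max_left _ _).trans hp)
  have hpP : P1 ≤ p := (le_max_right _ _).trans ((le_max_left _ _).trans hp)
  have hp4 : 4 ≤ p := (le_max_right _ _).trans hp
  obtain ⟨A, hA, hA'⟩ := Pool.Agent.Helper903.Tau.lower p hpp (by omega)
  have hn0 : 0 < p * (6 * (p - 1)) := Nat.mul_pos (by omega) (by omega)
  have : NeZero (p * (6 * (p - 1))) := ⟨hn0.ne'⟩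
  refine ⟨p * (6 * (p - 1)), ?_, ?_⟩
  · have : p * 1 ≤ p * (6 * (p - 1)) := Nat.mul_le_mul_left p (by omega)
    omega
  have h1 := le_tau (ind5.2 hA')
  rw [hA] at h1
  have hn' : (0 : ℝ) < ((p * (6 * (p - 1)) : ℕ) : ℝ) := by exact_mod_cast hn0
  have hp' : (4 : ℝ) ≤ p := by exact_mod_cast hp4
  have hcast : ((p - 1 : ℕ) : ℝ) = (p : ℝ) - 1 := by
    rw [Nat.cast_sub (by omega)]; simp
  have h2 : (p : ℝ) - 1 ≤ tau (p * (6 * (p - 1))) 5 := by
    rw [← hcast]; exact_mod_cast h1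
  have hεp : 1 ≤ ε * p := by
    have : 1 / ε ≤ p := hP1.trans (by exact_mod_cast hpP)
    rw [div_le_iff₀ hε] at this
    linarith
  rw [Real.sqrt_le_left (by positivity)]
  rw [div_pow, Real.sq_sqrt hn'.le, le_div_iff₀ hn']
  push_cast
  rw [hcast]
  have h3 : ((p : ℝ) - 1) ^ 2 ≤ (tau (p * (6 * (p - 1))) 5 : ℝ) ^ 2 :=
    pow_le_pow_left₀ (by linarith) h2 2
  refine le_trans ?_ h3
  nlinarith

/-- Q2: `τ_±(Z_n,[1,5])/√n` has no limit; its liminf is strictly smaller than its limsup. -/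
theorem result :
    (¬ ∃ L : ℝ, Tendsto (fun n : ℕ => (tau n 5 : ℝ) / Real.sqrt n) atTop (𝓝 L)) ∧
    liminf (fun n : ℕ => (tau n 5 : ℝ) / Real.sqrt n) atTop <
      limsup (fun n : ℕ => (tau n 5 : ℝ) / Real.sqrt n) atTop := by
  have hb1 : IsBoundedUnder (· ≥ ·) atTop (fun n : ℕ => (tau n 5 : ℝ) / Real.sqrt n) :=
    isBoundedUnder_of ⟨0, fun n => ratio_nonneg n⟩
  have hb2 : IsBoundedUnder (· ≤ ·) atTop (fun n : ℕ => (tau n 5 : ℝ) / Real.sqrt n) := by
    refine ⟨2, ?_⟩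
    rw [eventually_map]
    filter_upwards [eventually_gt_atTop 0] with n hn using ratio_le n hn
  have h1 : liminf (fun n : ℕ => (tau n 5 : ℝ) / Real.sqrt n) atTop ≤ Real.sqrt 0.1665 :=
    liminf_le_of_frequently_le freq_le hb1
  have h2 : Real.sqrt (1 / 6 - 0.0001) ≤
      limsup (fun n : ℕ => (tau n 5 : ℝ) / Real.sqrt n) atTop :=
    le_limsup_of_frequently_le (freq_ge 0.0001 (by norm_num)) hb2
  have h3 : Real.sqrt 0.1665 < Real.sqrt (1 / 6 - 0.0001) := by
    apply Real.sqrt_lt_sqrt <;> norm_num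
  have h4 := lt_of_le_of_lt h1 (lt_of_lt_of_le h3 h2)
  refine ⟨?_, h4⟩
  rintro ⟨L, hL⟩
  rw [hL.liminf_eq, hL.limsup_eq] at h4
  exact lt_irrefl _ h4

end Pool.Agent.Results.MP_364e44_co.LimitFive
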