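import Mathlib
import Pool.Agent.Helper591.Five.Prime
import Pool.Agent.Helper591.Five.Sidon

/-!
# MP_364e44_co, Q2: the ratio `τ_±(Z_n,[1,5]) / √n` has no limit

For a positive integer `t`, a set `A ⊆ Z_n` is `t`-independent (`Five.Indep n t A`) if no signed
integer combination of its elements of total weight between `1` and `t` is zero, and
`tau n t` is the largest size of such a set.  We prove

* `liminf tau n 5 / √n ≤ 1/√10` (along the primes even the limsup is at most `1/√10`),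
* `limsup tau n 5 / √n ≥ 1/√6`,

so that `liminf < limsup` and the limit does not exist.
-/

set_option autoImplicit false

open Filter Topology

namespace Pool.Agent.Results.MP_364e44_co.NoLimitFive

open Pool.Agent.Helper591.Five

/-- `A ⊆ Z_n` is `t`-independent: `∑ λ_a a ≠ 0` whenever `1 ≤ ∑ |λ_a| ≤ t` -/
def TIndependent (n t : ℕ) (A : Finset (ZMod n)) : Prop :=
  ∀ c : ZMod n → ℤ, 1 ≤ ∑ a ∈ A, |c a| → ∑ a ∈ A, |c a| ≤ t → ∑ a ∈ A, c a • a ≠ 0

/-- the largest size of a `t`-independent subset of `Z_n` -/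
noncomputable def tau (n t : ℕ) : ℕ :=
  sSup {k : ℕ | ∃ A : Finset (ZMod n), A.card = k ∧ TIndependent n t A}

theorem bdd (n t : ℕ) [NeZero n] :
    BddAbove {k : ℕ | ∃ A : Finset (ZMod n), A.card = k ∧ TIndependent n t A} := by
  refine ⟨n, ?_⟩
  rintro k ⟨A, rfl, -⟩
  have := Finset.card_le_univ A
  rwa [ZMod.card] at this

theorem tau_mem (n t : ℕ) [NeZero n] : ∃ A : Finset (ZMod n), A.card = tau n t ∧ TIndependent n t A := by
  have h : tau n t ∈ {k : ℕ | ∃ A : Finset (ZMod n), A.card = k ∧ TIndependent n t A} := by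
    refine Nat.sSup_mem ⟨0, ∅, rfl, ?_⟩ (bdd n t)
    intro c h
    simp at h
  exact h

theorem le_tau {n t : ℕ} [NeZero n] {A : Finset (ZMod n)} (hA : TIndependent n t A) :
    A.card ≤ tau n t :=
  le_csSup (bdd n t) ⟨A, rfl, hA⟩

/-- the ratio studied in the problem -/
noncomputable def ratio (n : ℕ) : ℝ := (tau n 5 : ℝ) / Real.sqrt n

theorem ratio_nonneg (n : ℕ) : 0 ≤ ratio n := div_nonneg (Nat.cast_nonneg _) (Real.sqrt_nonneg _)

theorem ratio_le_one (n : ℕ) : ratio n ≤ 1 := by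
  rcases Nat.eq_zero_or_pos n with rfl | hn
  · simp [ratio]
  · have : NeZero n := ⟨hn.ne'⟩
    obtain ⟨A, hA1, hA2⟩ := tau_mem n 5
    have h1 : (sym A).card = 2 * A.card := card_sym (t := 5) (by norm_num) hA2
    have h2 := card_sq_le (sym A) (fun y hy => diff_le_two (t := 5) (by norm_num) hA2 y hy)
    rw [h1, hA1] at h2
    have h3 : (tau n 5) ^ 2 ≤ n := by nlinarith
    have hn' : (0 : ℝ) < Real.sqrt n := Real.sqrt_pos.2 (by exact_mod_cast hn)
    rw [ratio, div_le_one hn']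
    apply Real.le_sqrt_of_sq_le
    exact_mod_cast h3

theorem bdd_le : IsBoundedUnder (· ≤ ·) atTop ratio :=
  isBoundedUnder_of ⟨1, fun n => ratio_le_one n⟩

theorem bdd_ge : IsBoundedUnder (· ≥ ·) atTop ratio :=
  isBoundedUnder_of ⟨0, fun n => ratio_nonneg n⟩

/-- upper bound along the primes -/
theorem primes {ε : ℝ} (hε : 0 < ε) : ∃ P : ℕ, ∀ p : ℕ, P ≤ p → p.Prime →
    (tau p 5 : ℝ) ≤ (1 / Real.sqrt 10 + ε) * Real.sqrt p := by
  set γ : ℝ := min 1 ε with hγ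
  have hγ0 : 0 < γ := lt_min one_pos hε
  obtain ⟨P, hP⟩ := prime_upper hγ0 (min_le_left _ _)
  refine ⟨P, ?_⟩
  intro p hpP hp
  have : Fact p.Prime := ⟨hp⟩
  obtain ⟨A, hA1, hA2⟩ := tau_mem p 5
  have h1 := hP p hpP A hA2
  rw [hA1] at h1
  have hp0 : (0 : ℝ) < p := by exact_mod_cast hp.pos
  set x : ℝ := 1 / Real.sqrt 10 with hx
  have hx0 : 0 < x := by positivity
  have hx2 : x ^ 2 = 1 / 10 := by
    rw [hx, div_pow, Real.sq_sqrt (by norm_num)]; norm_num
  have hx3 : 3 / 10 ≤ x := by nlinarith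
  have hs : Real.sqrt p ^ 2 = p := Real.sq_sqrt hp0.le
  have hγε : γ ≤ ε := min_le_right _ _
  have h2 : (tau p 5 : ℝ) ^ 2 ≤ ((x + ε) * Real.sqrt p) ^ 2 := by
    have h3 : (tau p 5 : ℝ) ^ 2 ≤ (1 / 10 + γ / 4) * p := by nlinarith
    have h4 : (1 / 10 + γ / 4) * p ≤ (x + ε) ^ 2 * p := by
      refine mul_le_mul_of_nonneg_right ?_ hp0.le
      nlinarith
    calc (tau p 5 : ℝ) ^ 2 ≤ (x + ε) ^ 2 * p := h3.trans h4
      _ = ((x + ε) * Real.sqrt p) ^ 2 := by rw [mul_pow, hs]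
  exact (pow_le_pow_iff_left₀ (Nat.cast_nonneg _) (by positivity) two_ne_zero).1 h2

theorem liminf_le : liminf ratio atTop ≤ 1 / Real.sqrt 10 := by
  refine le_of_forall_pos_le_add fun ε hε => ?_
  refine Filter.liminf_le_of_frequently_le ?_ bdd_ge
  rw [Filter.frequently_atTop]
  intro N
  obtain ⟨P, hP⟩ := primes hε
  obtain ⟨p, hp1, hp2⟩ := Nat.exists_infinite_primes (max N P)
  refine ⟨p, (le_max_left _ _).trans hp1, ?_⟩
  have h1 := hP p ((le_max_right _ _).trans hp1) hp2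
  have hp0 : (0 : ℝ) < Real.sqrt p := Real.sqrt_pos.2 (by exact_mod_cast hp2.pos)
  rw [ratio, div_le_iff₀ hp0]
  exact h1

theorem le_limsup : 1 / Real.sqrt 6 ≤ limsup ratio atTop := by
  by_contra hcon
  push Not at hcon
  have h6 : (0 : ℝ) < 1 / Real.sqrt 6 := by positivity
  obtain ⟨b, hb1, hb2⟩ := exists_between (max_lt hcon h6)
  have hb0 : 0 < b := lt_of_le_of_lt (le_max_right _ _) hb1
  have hbL : limsup ratio atTop < b := lt_of_le_of_lt (le_max_left _ _) hb1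
  refine absurd (Filter.le_limsup_of_frequently_le (a := b) ?_ bdd_le) (not_le.2 hbL)
  rw [Filter.frequently_atTop]
  intro N
  have hb3 : b ^ 2 < 1 / 6 := by
    have h1 : (1 / Real.sqrt 6) ^ 2 = 1 / 6 := by
      rw [div_pow, Real.sq_sqrt (by norm_num)]; norm_num
    rw [← h1]
    exact pow_lt_pow_left₀ hb2 hb0.le two_ne_zero
  obtain ⟨M, hM⟩ := exists_nat_gt (1 / (6 * (1 / 6 - b ^ 2)))
  obtain ⟨p, hp1, hp2⟩ := Nat.exists_infinite_primes (max (max N 3) M)
  have hpN : N ≤ p := (le_max_left _ _).trans ((le_max_left _ _).trans hp1)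
  have hp3 : 3 ≤ p := (le_max_right _ _).trans ((le_max_left _ _).trans hp1)
  have hpM : (M : ℝ) ≤ p := by exact_mod_cast (le_max_right _ _).trans hp1
  have hp0 : (0 : ℝ) < p := by exact_mod_cast hp2.pos
  obtain ⟨k, rfl⟩ : ∃ k, p = k + 1 := ⟨p - 1, by omega⟩
  have hk2 : 2 ≤ k := by omega
  have hk0 : (0 : ℝ) < k := by exact_mod_cast (by omega : 0 < k)
  have hne : 6 * ((k + 1 - 1) * (k + 1)) ≠ 0 := by
    rw [Nat.add_sub_cancel]; positivity
  refine ⟨6 * ((k + 1 - 1) * (k + 1)), ?_, ?_⟩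
  · rw [Nat.add_sub_cancel]; nlinarith
  · have : NeZero (6 * ((k + 1 - 1) * (k + 1))) := ⟨hne⟩
    obtain ⟨A, hA1, hA2⟩ := ruzsa hp2 hp3
    have h1 : k ≤ tau (6 * ((k + 1 - 1) * (k + 1))) 5 := by
      have := le_tau (n := 6 * ((k + 1 - 1) * (k + 1))) (t := 5) hA2
      rw [hA1] at this
      simpa using this
    have hn0 : (0 : ℝ) < Real.sqrt ((6 * ((k + 1 - 1) * (k + 1)) : ℕ) : ℝ) :=
      Real.sqrt_pos.2 (by exact_mod_cast Nat.pos_of_ne_zero hne)
    rw [ratio, le_div_iff₀ hn0]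
    have h2 : b * Real.sqrt ((6 * ((k + 1 - 1) * (k + 1)) : ℕ) : ℝ) ≤ k := by
      refine (pow_le_pow_iff_left₀ (by positivity) hk0.le two_ne_zero).1 ?_
      rw [mul_pow, Real.sq_sqrt (Nat.cast_nonneg _), Nat.add_sub_cancel]
      push_cast
      have h3 : 1 / (6 * (1 / 6 - b ^ 2)) < (k : ℝ) + 1 := by
        push_cast at hpM
        linarith
      have h4 : 0 < 6 * (1 / 6 - b ^ 2) := by linarith
      rw [div_lt_iff₀ h4] at h3
      have h5 : b ^ 2 * (6 * ((k : ℝ) + 1)) ≤ (k : ℝ) := by nlinarith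
      have h6 : b ^ 2 * (6 * ((k : ℝ) * ((k : ℝ) + 1))) = (b ^ 2 * (6 * ((k : ℝ) + 1))) * (k : ℝ) := by
        ring
      have h7 := mul_le_mul_of_nonneg_right h5 hk0.le
      nlinarith
    exact h2.trans (by exact_mod_cast h1)

/-- **Q2 of MP_364e44_co.** With `tau n 5` the largest size of a `5`-independent subset of `Z_n`:
the ratio `tau n 5 / √n` is bounded (between `0` and `1`), its liminf is at most `1/√10`, its limsup
is at least `1/√6`, hence the liminf is strictly smaller than the limsup and the ratio has no limit.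
Along the primes the ratio is eventually below `1/√10 + ε` for every `ε > 0`. -/
theorem result :
    (∀ n : ℕ, 0 ≤ (tau n 5 : ℝ) / Real.sqrt n ∧ (tau n 5 : ℝ) / Real.sqrt n ≤ 1) ∧
    (∀ ε : ℝ, 0 < ε → ∃ P : ℕ, ∀ p : ℕ, P ≤ p → p.Prime →
      (tau p 5 : ℝ) ≤ (1 / Real.sqrt 10 + ε) * Real.sqrt p) ∧
    liminf (fun n : ℕ => (tau n 5 : ℝ) / Real.sqrt n) atTop ≤ 1 / Real.sqrt 10 ∧
    1 / Real.sqrt 6 ≤ limsup (fun n : ℕ => (tau n 5 : ℝ) / Real.sqrt n) atTop ∧
    liminf (fun n : ℕ => (tau n 5 : ℝ) / Real.sqrt n) atTop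
      < limsup (fun n : ℕ => (tau n 5 : ℝ) / Real.sqrt n) atTop ∧
    ¬ ∃ L : ℝ, Tendsto (fun n : ℕ => (tau n 5 : ℝ) / Real.sqrt n) atTop (𝓝 L) := by
  have hlt : liminf ratio atTop < limsup ratio atTop := by
    refine lt_of_le_of_lt liminf_le (lt_of_lt_of_le ?_ le_limsup)
    apply one_div_lt_one_div_of_lt (by positivity)
    exact Real.sqrt_lt_sqrt (by norm_num) (by norm_num)
  refine ⟨fun n => ⟨ratio_nonneg n, ratio_le_one n⟩, fun ε hε => primes hε, liminf_le, le_limsup, hlt, ?_⟩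
  rintro ⟨L, hL⟩
  have h1 : liminf ratio atTop = L := hL.liminf_eq
  have h2 : limsup ratio atTop = L := hL.limsup_eq
  rw [h1, h2] at hlt
  exact lt_irrefl _ hlt

end Pool.Agent.Results.MP_364e44_co.NoLimitFive
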